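import Pool.Agent.Y950.MED

/-!
# The median inequality for the sum-of-digits measures `P_t`

`P_1 = δ_0`, `P_{2n} = P_n`, `P_{2n+1}(d) = P_n(d-1)/2 + P_{n+1}(d+1)/2`.  For every `t ≥ 1` the mass
of `ℕ = {0, 1, 2, ...}` under `P_t` is at least `1/2`.
-/

set_option autoImplicit false

namespace Pool.Agent.Results.MP_23af5d_nt.MedianInequality

/-- **The median inequality.** Let `P_1 = δ_0`, `P_{2n} = P_n` and
`P_{2n+1}(d) = P_n(d-1)/2 + P_{n+1}(d+1)/2` for `n ≥ 1`.  Then `P_t(ℕ) ≥ 1/2` for every `t ≥ 1`. -/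
theorem result (P : ℕ → ℤ → ℝ) (h1 : ∀ d, P 1 d = if d = 0 then 1 else 0)
    (heven : ∀ n, 1 ≤ n → ∀ d, P (2 * n) d = P n d)
    (hodd : ∀ n, 1 ≤ n → ∀ d, P (2 * n + 1) d = P n (d - 1) / 2 + P (n + 1) (d + 1) / 2) :
    ∀ t : ℕ, 1 ≤ t → 1 / 2 ≤ ∑' d : ℕ, P t d :=
  Pool.Agent.Y950.MED.median P h1 heven hodd

end Pool.Agent.Results.MP_23af5d_nt.MedianInequality
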